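import Mathlib

/-!
# The triple `(18, 38, 18)` of Sun's list: data and loops for the kernel computation

For `n = 822335` and `W = 9 x² + 19 y² + 9 z²` one has `x y (18 x² + 38 y² + 18 z²) = 2 x y W`.
If this is a square and `n = x² + y² + z² + w²` then `W = 8 c t²` where `c` is the squarefree part
of `x y`.  The functions below run over all pairs `x`, `y` and all `t` with `8 c t²` in the
possible range and check that one of the numbers `z² = (8 c t² - 9 x² - 19 y²) / 9` and
`w² = n - x² - y² - z²` is a quadratic non-residue for one of five moduli.  (The organisation of the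
kernel computation, `force`, `masks` and `comb`, follows the library file on `n = 56271`.)
-/

set_option autoImplicit false
set_option maxRecDepth 100000

namespace Pool.Agent.H62.Sun18

/-- `p i` holds for all `i < n` -/
noncomputable def allBelow (p : ℕ → Bool) (n : ℕ) : Bool :=
  Nat.rec true (fun k ih => and (p k) ih) n

theorem allBelow_spec (p : ℕ → Bool) : ∀ n : ℕ, allBelow p n = true → ∀ i < n, p i = true
  | 0, _, i, hi => absurd hi (Nat.not_lt_zero i)
  | n + 1, h, i, hi => by
      have h' : (p n && allBelow p n) = true := h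
      rw [Bool.and_eq_true] at h'
      rcases Nat.lt_succ_iff_lt_or_eq.1 hi with h1 | h1
      · exact allBelow_spec p n h'.2 i h1
      · rw [h1]; exact h'.1

/-- `f q`, written such that the kernel evaluates `q` first -/
noncomputable def force (q : ℕ) (f : ℕ → Bool) : Bool :=
  Nat.rec (f 0) (fun n _ => f (Nat.succ n)) q

theorem force_eq (q : ℕ) (f : ℕ → Bool) : force q f = f q := by
  cases q <;> rfl

/-- bit mask of the squares modulo `5040` -/
def K0 : ℕ := 0x1000000000200001000000000000000000201001000000000020000000201000200000000000000000001000000000200001200020000001000000201000000000000000000000001000200100000000300000000000000000200000200000200001100000001000000000001000200000000021000000000000200020000000000100000000200000200001000000000001000100001000200000200001000000000000200000001020100000000001000000200000000000200021000000001000200000201001200000000000000000001000000020200001000000000000000000201001000020000000000100201000300000000000000020001000000100200001200000000001000000201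0000000000000200000000010002000000000002000000000200000002000002000202000010000000010000000000010002000000000010001000000003000000000000000200000002000002000011000000000010000000010002000002000211000000000002000000010000000000000010000002000000000002000010001000010002000002010012000000000000000000010001000002000010000200000000000002010210000000000000000002010002000000000001000000010000000002000012000000000010000002010000000200000000001000010002000000000002000200000000001002000002000002000010000000010000001000010202000000000010000000000002000000000201000000000002000002000010000000000210000000010002000002000010001000000002000000010000000200000010000002000001000002000010000200010002001002010213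
/-- bit mask of the squares modulo `143` -/
def K1 : ℕ := 0x24420611901906682501a304500ec1521b
/-- bit mask of the squares modulo `323` -/
def K2 : ℕ := 0x20853400e2003c1816880a4221020401898041b02232116400bc8857020aa301500828c58460b0213
/-- bit mask of the squares modulo `667` -/
def K3 : ℕ := 0x5000b0a6224144150209298011590a448a0448240812d002319080038044408081a205231d0226380081780900884230200663c100d38289078430480866a204c53c000a384011708640814c52001823812253
/-- bit mask of the squares modulo `1147` -/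
def K4 : ℕ := 0x10180432240a842240741e00108a30b100d459120000a6e484402d0104a211801907100408896800700ec88022113000001a1202a000e48511884106a098021d07252010892a08100e4c9068043820c04022432056200611a0c108a0d9920847a62438022c0065021080aa2d1001445970002866c08401c1400e211a921041002418870840240c9c002835212010693

/-- the bit of `K` at `v` modulo `m` is `0` -/
def bit (K m v : ℕ) : Bool := Nat.beq (Nat.land (Nat.shiftRight K (Nat.mod v m)) 1) 0

theorem bit_sq (K m : ℕ) (hm : 0 < m)
    (h : allBelow (fun a => not (bit K m (Nat.mul a a))) m = true) (a : ℕ) :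
    bit K m (a * a) = false := by
  have h2 := allBelow_spec _ _ h (a % m) (Nat.mod_lt _ hm)
  have h3 : bit K m (a % m * (a % m)) = false := by
    have : (!bit K m (a % m * (a % m))) = true := h2
    simpa using this
  have e : a * a % m = (a % m * (a % m)) % m := Nat.mul_mod _ _ _
  have e2 : bit K m (a * a) = bit K m (a % m * (a % m)) := by
    show Nat.beq (Nat.land (Nat.shiftRight K (a * a % m)) 1) 0 =
      Nat.beq (Nat.land (Nat.shiftRight K ((a % m * (a % m)) % m)) 1) 0
    rw [e]
  rw [e2, h3]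

/-- the number is a non-residue for one of the moduli -/
def nonsq' (v : ℕ) : Bool :=
  or (bit K0 5040 v) (or (bit K1 143 v) (or (bit K2 323 v) (or (bit K3 667 v) (bit K4 1147 v))))

/-- the number is a non-residue for one of the moduli -/
noncomputable def nonsq (v : ℕ) : Bool := force v nonsq'

theorem ok0 : allBelow (fun a => not (bit K0 5040 (Nat.mul a a))) 5040 = true := by
  decide +kernel
theorem ok1 : allBelow (fun a => not (bit K1 143 (Nat.mul a a))) 143 = true := by
  decide +kernel
theorem ok2 : allBelow (fun a => not (bit K2 323 (Nat.mul a a))) 323 = true := by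
  decide +kernel
theorem ok3 : allBelow (fun a => not (bit K3 667 (Nat.mul a a))) 667 = true := by
  decide +kernel
theorem ok4 : allBelow (fun a => not (bit K4 1147 (Nat.mul a a))) 1147 = true := by
  decide +kernel

theorem nonsq_spec (v : ℕ) (h : nonsq v = true) : ¬ IsSquare v := by
  rintro ⟨a, rfl⟩
  rw [nonsq, force_eq, nonsq', bit_sq K0 5040 (by norm_num) ok0, bit_sq K1 143 (by norm_num) ok1,
    bit_sq K2 323 (by norm_num) ok2, bit_sq K3 667 (by norm_num) ok3,
    bit_sq K4 1147 (by norm_num) ok4] at h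
  exact absurd h (by decide)

/-- product of two squarefree numbers divided by the square of their greatest common divisor -/
def comb (a b : ℕ) : ℕ := Nat.mul (Nat.div a (Nat.gcd a b)) (Nat.div b (Nat.gcd a b))

theorem comb_spec (a b : ℕ) (ha : Squarefree a) (hb : Squarefree b) :
    Squarefree (comb a b) ∧ a * b = comb a b * (Nat.gcd a b) ^ 2 := by
  have ha0 : 0 < a := Nat.pos_of_ne_zero ha.ne_zero
  have hg : 0 < Nat.gcd a b := Nat.gcd_pos_of_pos_left b ha0
  have e1 : Nat.gcd a b * (a / Nat.gcd a b) = a := Nat.mul_div_cancel' (Nat.gcd_dvd_left a b)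
  have e2 : Nat.gcd a b * (b / Nat.gcd a b) = b := Nat.mul_div_cancel' (Nat.gcd_dvd_right a b)
  have hc : comb a b = (a / Nat.gcd a b) * (b / Nat.gcd a b) := rfl
  have hcop : Nat.Coprime (a / Nat.gcd a b) (b / Nat.gcd a b) := Nat.coprime_div_gcd_div_gcd hg
  refine ⟨?_, ?_⟩
  · rw [hc, Nat.squarefree_mul hcop]
    exact ⟨ha.squarefree_of_dvd ⟨_, (by rw [mul_comm]; exact e1.symm)⟩,
      hb.squarefree_of_dvd ⟨_, (by rw [mul_comm]; exact e2.symm)⟩⟩
  · rw [hc]
    calc a * b = (Nat.gcd a b * (a / Nat.gcd a b)) * (Nat.gcd a b * (b / Nat.gcd a b)) := by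
          rw [e1, e2]
      _ = _ := by ring

/-- one of `v`, `A - v` is not a square -/
noncomputable def chk3 (A v : ℕ) : Bool := or (nonsq v) (nonsq (Nat.sub A v))

/-- `u` is not `9 z²` with `A - z²` a square -/
noncomputable def chk2 (A u : ℕ) : Bool :=
  or (not (Nat.beq (Nat.mod u 9) 0)) (force (Nat.div u 9) (chk3 A))

/-- one step of the loop -/
noncomputable def chk1 (W0 A B : ℕ) (k : ℕ → Bool) (t W : ℕ) : Bool :=
  or (Nat.blt B W) (and (or (Nat.ble W W0) (force (Nat.sub W W0) (chk2 A))) (k (Nat.succ t)))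

/-- one step of the loop -/
noncomputable def chk0 (M W0 A B : ℕ) (k : ℕ → Bool) (t : ℕ) : Bool :=
  force (Nat.mul M (Nat.mul t t)) (chk1 W0 A B k t)

/-- the loop over `t`, with `B = W0 + 9 A` -/
noncomputable def loop (M W0 A B f : ℕ) : ℕ → Bool :=
  Nat.rec (fun _ => false) (fun _ ih t => force t (chk0 M W0 A B ih)) f

theorem loop_spec (M W0 A B : ℕ) (hB : B = W0 + 9 * A) : ∀ f t : ℕ, loop M W0 A B f t = true →
    ∀ u z w : ℕ, t ≤ u → M * (u * u) = W0 + 9 * (z * z) → A = z * z + w * w → z ≠ 0 → False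
  | 0, t, h, _, _, _, _, _, _, _ => by
      have h' : false = true := h
      exact absurd h' (by simp)
  | f + 1, t, h, u, z, w, hu, h1, h2, h0 => by
      have h' : (force t fun t => force (M * (t * t)) fun W => (Nat.blt B W ||
        ((Nat.ble W W0 || (force (W - W0) fun u => (!(Nat.beq (u % 9) 0) ||
          (force (u / 9) fun v => (nonsq v || nonsq (A - v)))))) &&
          loop M W0 A B f (t + 1)))) = true := h
      rw [force_eq, force_eq, force_eq, force_eq, Bool.or_eq_true, Bool.and_eq_true,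
        Bool.or_eq_true, Bool.or_eq_true, Bool.or_eq_true] at h'
      rcases h' with h3 | ⟨h3, h4⟩
      · have h5 : B < M * (t * t) := Nat.blt_eq.mp h3
        have h6 : M * (t * t) ≤ M * (u * u) :=
          Nat.mul_le_mul_left M (Nat.mul_le_mul hu hu)
        have h7 : z * z ≤ A := by omega
        omega
      · rcases Nat.eq_or_lt_of_le hu with h5 | h5
        · subst h5
          have e1 : M * (t * t) - W0 = 9 * (z * z) := by omega
          have hz : 0 < z * z := Nat.mul_pos (Nat.pos_of_ne_zero h0) (Nat.pos_of_ne_zero h0)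
          rw [e1] at h3
          rcases h3 with h6 | h6 | h6 | h6
          · have := Nat.ble_eq.mp h6
            omega
          · rw [Nat.mul_mod_right] at h6
            exact absurd h6 (by decide)
          · rw [Nat.mul_div_cancel_left _ (by norm_num)] at h6
            exact nonsq_spec _ h6 ⟨z, rfl⟩
          · rw [Nat.mul_div_cancel_left _ (by norm_num)] at h6
            exact nonsq_spec _ h6 ⟨w, by omega⟩
        · exact loop_spec M W0 A B hB f (t + 1) h4 u z w h5 h1 h2 h0

/-- an approximation of the square root -/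
noncomputable def step (q s : ℕ) : ℕ := Nat.div (Nat.add s (Nat.div q s)) 2

/-- one Newton step, evaluated -/
noncomputable def nw (q : ℕ) (k : ℕ → Bool) (s : ℕ) : Bool := force (step q s) k

/-- the loop, begun above a checked lower bound -/
noncomputable def st2 (M W0 A B s : ℕ) : Bool :=
  or (and (Nat.ble (Nat.mul M (Nat.mul s s)) W0) (loop M W0 A B 1500 (Nat.succ s)))
    (loop M W0 A B 1500 1)

/-- the approximate lower bound -/
noncomputable def st1 (M W0 A B q : ℕ) : Bool :=
  force (Nat.pow 2 (Nat.succ (Nat.div (Nat.log2 q) 2)))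
    (nw q (nw q (nw q (nw q (st2 M W0 A B)))))

/-- the loop, begun above a checked lower bound -/
noncomputable def start (M W0 A B : ℕ) : Bool := force (Nat.div W0 M) (st1 M W0 A B)

theorem start_spec (M W0 A B : ℕ) (hB : B = W0 + 9 * A) (h : start M W0 A B = true)
    (u z w : ℕ) (h1 : M * (u * u) = W0 + 9 * (z * z)) (h2 : A = z * z + w * w) (h0 : z ≠ 0) :
    False := by
  rw [start, force_eq, st1, force_eq, nw, force_eq, nw, force_eq, nw, force_eq, nw, force_eq,
    st2] at h
  generalize step _ _ = s at h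
  rw [Bool.or_eq_true, Bool.and_eq_true] at h
  have hz : 0 < z * z := Nat.mul_pos (Nat.pos_of_ne_zero h0) (Nat.pos_of_ne_zero h0)
  rcases h with ⟨h3, h4⟩ | h4
  · have h5 : M * (s * s) ≤ W0 := Nat.ble_eq.mp h3
    refine loop_spec M W0 A B hB _ _ h4 u z w ?_ h1 h2 h0
    by_contra hc
    have hc' : u ≤ s := by
      have : ¬ s + 1 ≤ u := hc
      omega
    have h6 : M * (u * u) ≤ M * (s * s) := Nat.mul_le_mul_left M (Nat.mul_le_mul hc' hc')
    omega
  · refine loop_spec M W0 A B hB _ _ h4 u z w ?_ h1 h2 h0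
    rcases Nat.eq_zero_or_pos u with h5 | h5
    · exfalso
      rw [h5] at h1
      simp at h1
      omega
    · exact h5

/-- part of the test -/
noncomputable def te4 (W0 A B M : ℕ) : Bool := start M W0 A B

/-- part of the test -/
noncomputable def te3 (y c W0 A B : ℕ) : Bool :=
  force (bif Nat.beq (Nat.mod y 3) 0 then Nat.mul 72 c else Nat.mul 8 c) (te4 W0 A B)

/-- part of the test -/
noncomputable def te2 (y c W0 A : ℕ) : Bool := force (Nat.add W0 (Nat.mul 9 A)) (te3 y c W0 A)

/-- part of the test -/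
noncomputable def te1 (y s c W0 : ℕ) : Bool := force (Nat.sub 822335 s) (te2 y c W0)

/-- part of the test -/
noncomputable def te0 (x y s c : ℕ) : Bool :=
  or (and (not (Nat.beq (Nat.mod y 3) 0)) (not (Nat.beq (Nat.mod c 3) 2)))
  (force (Nat.add (Nat.mul 9 (Nat.mul x x)) (Nat.mul 19 (Nat.mul y y))) (te1 y s c))

/-- part of the test -/
noncomputable def te (x a y b s : ℕ) : Bool :=
  or (Nat.blt 822335 s) (force (comb a b) (te0 x y s))

/-- the test for one pair `x`, `y` with squarefree parts `a`, `b` -/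
noncomputable def test (x a y b : ℕ) : Bool :=
  force (Nat.add (Nat.mul x x) (Nat.mul y y)) (te x a y b)

theorem test_spec (x a y b : ℕ) (h : test x a y b = true) (hs : x * x + y * y ≤ 822335) :
    ((y % 3 ≠ 0 ∧ comb a b % 3 ≠ 2) ∨
      start (if y % 3 = 0 then 72 * comb a b else 8 * comb a b) (9 * (x * x) + 19 * (y * y))
        (822335 - (x * x + y * y)) ((9 * (x * x) + 19 * (y * y)) + 9 * (822335 - (x * x + y * y)))
        = true) := by
  have h' : (force (x * x + y * y) fun s => (Nat.blt 822335 s ||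
    (force (comb a b) fun c => ((!(Nat.beq (y % 3) 0) && !(Nat.beq (c % 3) 2)) ||
    (force (9 * (x * x) + 19 * (y * y)) fun W0 => force (822335 - s) fun A =>
      force (W0 + 9 * A) fun B =>
      force (bif Nat.beq (y % 3) 0 then 72 * c else 8 * c) fun M => start M W0 A B))))) = true := h
  simp only [force_eq] at h'
  rw [Bool.or_eq_true, Bool.or_eq_true, Bool.and_eq_true] at h'
  rcases h' with h1 | ⟨h1, h2⟩ | h1
  · have := Nat.blt_eq.mp h1
    omega
  · left
    constructor
    · intro h3
      rw [h3] at h1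
      exact absurd h1 (by decide)
    · intro h3
      rw [h3] at h2
      exact absurd h2 (by decide)
  · right
    rw [← h1]
    by_cases h3 : y % 3 = 0
    · rw [if_pos h3, h3]
      rfl
    · rw [if_neg h3]
      have h4 : Nat.beq (y % 3) 0 = false := by
        rcases h5 : Nat.beq (y % 3) 0 with _ | _
        · rfl
        · exact absurd (Nat.eq_of_beq_eq_true h5) h3
      rw [h4]
      rfl

/-- table of the odd numbers, part 0 -/
def O0 : List (ℕ × ℕ × ℕ) := [
   (1, 1, 1)]

/-- table of the odd numbers, part 1 -/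
def O1 : List (ℕ × ℕ × ℕ) := [
   (3, 3, 1)]

/-- table of the odd numbers, part 2 -/
def O2 : List (ℕ × ℕ × ℕ) := [
   (5, 5, 1)]

/-- table of the odd numbers, part 3 -/
def O3 : List (ℕ × ℕ × ℕ) := [
   (7, 7, 1)]

/-- table of the odd numbers, part 4 -/
def O4 : List (ℕ × ℕ × ℕ) := [
   (9, 1, 3)]

/-- table of the odd numbers, part 5 -/
def O5 : List (ℕ × ℕ × ℕ) := [
   (11, 11, 1)]

/-- table of the odd numbers, part 6 -/
def O6 : List (ℕ × ℕ × ℕ) := [
   (13, 13, 1)]

/-- table of the odd numbers, part 7 -/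
def O7 : List (ℕ × ℕ × ℕ) := [
   (15, 15, 1)]

/-- table of the odd numbers, part 8 -/
def O8 : List (ℕ × ℕ × ℕ) := [
   (17, 17, 1)]

/-- table of the odd numbers, part 9 -/
def O9 : List (ℕ × ℕ × ℕ) := [
   (19, 19, 1), (21, 21, 1)]

/-- table of the odd numbers, part 10 -/
def O10 : List (ℕ × ℕ × ℕ) := [
   (23, 23, 1)]

/-- table of the odd numbers, part 11 -/
def O11 : List (ℕ × ℕ × ℕ) := [
   (25, 1, 5)]

/-- table of the odd numbers, part 12 -/
def O12 : List (ℕ × ℕ × ℕ) := [
   (27, 3, 3)]

/-- table of the odd numbers, part 13 -/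
def O13 : List (ℕ × ℕ × ℕ) := [
   (29, 29, 1), (31, 31, 1)]

/-- table of the odd numbers, part 14 -/
def O14 : List (ℕ × ℕ × ℕ) := [
   (33, 33, 1)]

/-- table of the odd numbers, part 15 -/
def O15 : List (ℕ × ℕ × ℕ) := [
   (35, 35, 1)]

/-- table of the odd numbers, part 16 -/
def O16 : List (ℕ × ℕ × ℕ) := [
   (37, 37, 1), (39, 39, 1)]

/-- table of the odd numbers, part 17 -/
def O17 : List (ℕ × ℕ × ℕ) := [
   (41, 41, 1), (43, 43, 1)]

/-- table of the odd numbers, part 18 -/
def O18 : List (ℕ × ℕ × ℕ) := [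
   (45, 5, 3)]

/-- table of the odd numbers, part 19 -/
def O19 : List (ℕ × ℕ × ℕ) := [
   (47, 47, 1)]

/-- table of the odd numbers, part 20 -/
def O20 : List (ℕ × ℕ × ℕ) := [
   (49, 1, 7)]

/-- table of the odd numbers, part 21 -/
def O21 : List (ℕ × ℕ × ℕ) := [
   (51, 51, 1), (53, 53, 1)]

/-- table of the odd numbers, part 22 -/
def O22 : List (ℕ × ℕ × ℕ) := [
   (55, 55, 1), (57, 57, 1)]

/-- table of the odd numbers, part 23 -/
def O23 : List (ℕ × ℕ × ℕ) := [
   (59, 59, 1), (61, 61, 1)]

/-- table of the odd numbers, part 24 -/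
def O24 : List (ℕ × ℕ × ℕ) := [
   (63, 7, 3)]

/-- table of the odd numbers, part 25 -/
def O25 : List (ℕ × ℕ × ℕ) := [
   (65, 65, 1), (67, 67, 1)]

/-- table of the odd numbers, part 26 -/
def O26 : List (ℕ × ℕ × ℕ) := [
   (69, 69, 1), (71, 71, 1), (73, 73, 1)]

/-- table of the odd numbers, part 27 -/
def O27 : List (ℕ × ℕ × ℕ) := [
   (75, 3, 5)]

/-- table of the odd numbers, part 28 -/
def O28 : List (ℕ × ℕ × ℕ) := [
   (77, 77, 1), (79, 79, 1)]

/-- table of the odd numbers, part 29 -/
def O29 : List (ℕ × ℕ × ℕ) := [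
   (81, 1, 9)]

/-- table of the odd numbers, part 30 -/
def O30 : List (ℕ × ℕ × ℕ) := [
   (83, 83, 1), (85, 85, 1), (87, 87, 1)]

/-- table of the odd numbers, part 31 -/
def O31 : List (ℕ × ℕ × ℕ) := [
   (89, 89, 1), (91, 91, 1), (93, 93, 1)]

/-- table of the odd numbers, part 32 -/
def O32 : List (ℕ × ℕ × ℕ) := [
   (95, 95, 1), (97, 97, 1)]

/-- table of the odd numbers, part 33 -/
def O33 : List (ℕ × ℕ × ℕ) := [
   (99, 11, 3)]

/-- table of the odd numbers, part 34 -/
def O34 : List (ℕ × ℕ × ℕ) := [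
   (101, 101, 1), (103, 103, 1), (105, 105, 1), (107, 107, 1)]

/-- table of the odd numbers, part 35 -/
def O35 : List (ℕ × ℕ × ℕ) := [
   (109, 109, 1), (111, 111, 1), (113, 113, 1), (115, 115, 1)]

/-- table of the odd numbers, part 36 -/
def O36 : List (ℕ × ℕ × ℕ) := [
   (117, 13, 3)]

/-- table of the odd numbers, part 37 -/
def O37 : List (ℕ × ℕ × ℕ) := [
   (119, 119, 1)]

/-- table of the odd numbers, part 38 -/
def O38 : List (ℕ × ℕ × ℕ) := [
   (121, 1, 11)]

/-- table of the odd numbers, part 39 -/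
def O39 : List (ℕ × ℕ × ℕ) := [
   (123, 123, 1)]

/-- table of the odd numbers, part 40 -/
def O40 : List (ℕ × ℕ × ℕ) := [
   (125, 5, 5)]

/-- table of the odd numbers, part 41 -/
def O41 : List (ℕ × ℕ × ℕ) := [
   (127, 127, 1), (129, 129, 1), (131, 131, 1), (133, 133, 1)]

/-- table of the odd numbers, part 42 -/
def O42 : List (ℕ × ℕ × ℕ) := [
   (135, 15, 3), (137, 137, 1), (139, 139, 1), (141, 141, 1)]

/-- table of the odd numbers, part 43 -/
def O43 : List (ℕ × ℕ × ℕ) := [
   (143, 143, 1), (145, 145, 1)]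

/-- table of the odd numbers, part 44 -/
def O44 : List (ℕ × ℕ × ℕ) := [
   (147, 3, 7), (149, 149, 1), (151, 151, 1)]

/-- table of the odd numbers, part 45 -/
def O45 : List (ℕ × ℕ × ℕ) := [
   (153, 17, 3), (155, 155, 1)]

/-- table of the odd numbers, part 46 -/
def O46 : List (ℕ × ℕ × ℕ) := [
   (157, 157, 1), (159, 159, 1), (161, 161, 1), (163, 163, 1), (165, 165, 1)]

/-- table of the odd numbers, part 47 -/
def O47 : List (ℕ × ℕ × ℕ) := [
   (167, 167, 1)]

/-- table of the odd numbers, part 48 -/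
def O48 : List (ℕ × ℕ × ℕ) := [
   (169, 1, 13)]

/-- table of the odd numbers, part 49 -/
def O49 : List (ℕ × ℕ × ℕ) := [
   (171, 19, 3), (173, 173, 1)]

/-- table of the odd numbers, part 50 -/
def O50 : List (ℕ × ℕ × ℕ) := [
   (175, 7, 5), (177, 177, 1)]

/-- table of the odd numbers, part 51 -/
def O51 : List (ℕ × ℕ × ℕ) := [
   (179, 179, 1), (181, 181, 1), (183, 183, 1), (185, 185, 1), (187, 187, 1)]

/-- table of the odd numbers, part 52 -/
def O52 : List (ℕ × ℕ × ℕ) := [
   (189, 21, 3), (191, 191, 1), (193, 193, 1), (195, 195, 1), (197, 197, 1)]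

/-- table of the odd numbers, part 53 -/
def O53 : List (ℕ × ℕ × ℕ) := [
   (199, 199, 1), (201, 201, 1), (203, 203, 1), (205, 205, 1)]

/-- table of the odd numbers, part 54 -/
def O54 : List (ℕ × ℕ × ℕ) := [
   (207, 23, 3), (209, 209, 1), (211, 211, 1)]

/-- table of the odd numbers, part 55 -/
def O55 : List (ℕ × ℕ × ℕ) := [
   (213, 213, 1), (215, 215, 1), (217, 217, 1), (219, 219, 1), (221, 221, 1)]

/-- table of the odd numbers, part 56 -/
def O56 : List (ℕ × ℕ × ℕ) := [
   (223, 223, 1)]

/-- table of the odd numbers, part 57 -/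
def O57 : List (ℕ × ℕ × ℕ) := [
   (225, 1, 15)]

/-- table of the odd numbers, part 58 -/
def O58 : List (ℕ × ℕ × ℕ) := [
   (227, 227, 1), (229, 229, 1), (231, 231, 1), (233, 233, 1), (235, 235, 1), (237, 237, 1)]

/-- table of the odd numbers, part 59 -/
def O59 : List (ℕ × ℕ × ℕ) := [
   (239, 239, 1), (241, 241, 1), (243, 3, 9)]

/-- table of the odd numbers, part 60 -/
def O60 : List (ℕ × ℕ × ℕ) := [
   (245, 5, 7)]

/-- table of the odd numbers, part 61 -/
def O61 : List (ℕ × ℕ × ℕ) := [
   (247, 247, 1), (249, 249, 1), (251, 251, 1), (253, 253, 1), (255, 255, 1), (257, 257, 1)]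

/-- table of the odd numbers, part 62 -/
def O62 : List (ℕ × ℕ × ℕ) := [
   (259, 259, 1), (261, 29, 3), (263, 263, 1), (265, 265, 1)]

/-- table of the odd numbers, part 63 -/
def O63 : List (ℕ × ℕ × ℕ) := [
   (267, 267, 1), (269, 269, 1), (271, 271, 1), (273, 273, 1)]

/-- table of the odd numbers, part 64 -/
def O64 : List (ℕ × ℕ × ℕ) := [
   (275, 11, 5), (277, 277, 1)]

/-- table of the odd numbers, part 65 -/
def O65 : List (ℕ × ℕ × ℕ) := [
   (279, 31, 3), (281, 281, 1), (283, 283, 1), (285, 285, 1), (287, 287, 1)]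

/-- table of the odd numbers, part 66 -/
def O66 : List (ℕ × ℕ × ℕ) := [
   (289, 1, 17)]

/-- table of the odd numbers, part 67 -/
def O67 : List (ℕ × ℕ × ℕ) := [
   (291, 291, 1), (293, 293, 1), (295, 295, 1), (297, 33, 3), (299, 299, 1), (301, 301, 1)]

/-- table of the odd numbers, part 68 -/
def O68 : List (ℕ × ℕ × ℕ) := [
   (303, 303, 1), (305, 305, 1), (307, 307, 1), (309, 309, 1), (311, 311, 1), (313, 313, 1)]

/-- table of the odd numbers, part 69 -/
def O69 : List (ℕ × ℕ × ℕ) := [
   (315, 35, 3), (317, 317, 1), (319, 319, 1), (321, 321, 1)]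

/-- table of the odd numbers, part 70 -/
def O70 : List (ℕ × ℕ × ℕ) := [
   (323, 323, 1), (325, 13, 5), (327, 327, 1), (329, 329, 1), (331, 331, 1)]

/-- table of the odd numbers, part 71 -/
def O71 : List (ℕ × ℕ × ℕ) := [
   (333, 37, 3), (335, 335, 1), (337, 337, 1), (339, 339, 1), (341, 341, 1)]

/-- table of the odd numbers, part 72 -/
def O72 : List (ℕ × ℕ × ℕ) := [
   (343, 7, 7), (345, 345, 1), (347, 347, 1), (349, 349, 1)]

/-- table of the odd numbers, part 73 -/
def O73 : List (ℕ × ℕ × ℕ) := [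
   (351, 39, 3), (353, 353, 1), (355, 355, 1), (357, 357, 1), (359, 359, 1)]

/-- table of the odd numbers, part 74 -/
def O74 : List (ℕ × ℕ × ℕ) := [
   (361, 1, 19)]

/-- table of the odd numbers, part 75 -/
def O75 : List (ℕ × ℕ × ℕ) := [
   (363, 3, 11), (365, 365, 1), (367, 367, 1)]

/-- table of the odd numbers, part 76 -/
def O76 : List (ℕ × ℕ × ℕ) := [
   (369, 41, 3), (371, 371, 1), (373, 373, 1), (375, 15, 5)]

/-- table of the odd numbers, part 77 -/
def O77 : List (ℕ × ℕ × ℕ) := [
   (377, 377, 1), (379, 379, 1), (381, 381, 1), (383, 383, 1), (385, 385, 1), (387, 43, 3),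
   (389, 389, 1)]

/-- table of the odd numbers, part 78 -/
def O78 : List (ℕ × ℕ × ℕ) := [
   (391, 391, 1), (393, 393, 1), (395, 395, 1), (397, 397, 1), (399, 399, 1), (401, 401, 1),
   (403, 403, 1)]

/-- table of the odd numbers, part 79 -/
def O79 : List (ℕ × ℕ × ℕ) := [
   (405, 5, 9), (407, 407, 1)]

/-- table of the odd numbers, part 80 -/
def O80 : List (ℕ × ℕ × ℕ) := [
   (409, 409, 1), (411, 411, 1), (413, 413, 1), (415, 415, 1), (417, 417, 1), (419, 419, 1),
   (421, 421, 1), (423, 47, 3)]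

/-- table of the odd numbers, part 81 -/
def O81 : List (ℕ × ℕ × ℕ) := [
   (425, 17, 5), (427, 427, 1), (429, 429, 1), (431, 431, 1), (433, 433, 1), (435, 435, 1),
   (437, 437, 1), (439, 439, 1)]

/-- table of the odd numbers, part 82 -/
def O82 : List (ℕ × ℕ × ℕ) := [
   (441, 1, 21), (443, 443, 1)]

/-- table of the odd numbers, part 83 -/
def O83 : List (ℕ × ℕ × ℕ) := [
   (445, 445, 1), (447, 447, 1), (449, 449, 1), (451, 451, 1), (453, 453, 1), (455, 455, 1),
   (457, 457, 1), (459, 51, 3)]

/-- table of the odd numbers, part 84 -/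
def O84 : List (ℕ × ℕ × ℕ) := [
   (461, 461, 1), (463, 463, 1), (465, 465, 1), (467, 467, 1), (469, 469, 1), (471, 471, 1),
   (473, 473, 1), (475, 19, 5)]

/-- table of the odd numbers, part 85 -/
def O85 : List (ℕ × ℕ × ℕ) := [
   (477, 53, 3), (479, 479, 1), (481, 481, 1), (483, 483, 1), (485, 485, 1), (487, 487, 1),
   (489, 489, 1), (491, 491, 1)]

/-- table of the odd numbers, part 86 -/
def O86 : List (ℕ × ℕ × ℕ) := [
   (493, 493, 1), (495, 55, 3), (497, 497, 1), (499, 499, 1), (501, 501, 1), (503, 503, 1),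
   (505, 505, 1)]

/-- table of the odd numbers, part 87 -/
def O87 : List (ℕ × ℕ × ℕ) := [
   (507, 3, 13), (509, 509, 1), (511, 511, 1), (513, 57, 3), (515, 515, 1), (517, 517, 1),
   (519, 519, 1), (521, 521, 1)]

/-- table of the odd numbers, part 88 -/
def O88 : List (ℕ × ℕ × ℕ) := [
   (523, 523, 1), (525, 21, 5), (527, 527, 1)]

/-- table of the odd numbers, part 89 -/
def O89 : List (ℕ × ℕ × ℕ) := [
   (529, 1, 23), (531, 59, 3), (533, 533, 1)]

/-- table of the odd numbers, part 90 -/
def O90 : List (ℕ × ℕ × ℕ) := [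
   (535, 535, 1), (537, 537, 1), (539, 11, 7), (541, 541, 1), (543, 543, 1), (545, 545, 1),
   (547, 547, 1), (549, 61, 3)]

/-- table of the odd numbers, part 91 -/
def O91 : List (ℕ × ℕ × ℕ) := [
   (551, 551, 1), (553, 553, 1), (555, 555, 1), (557, 557, 1), (559, 559, 1), (561, 561, 1),
   (563, 563, 1), (565, 565, 1)]

/-- table of the odd numbers, part 92 -/
def O92 : List (ℕ × ℕ × ℕ) := [
   (567, 7, 9), (569, 569, 1), (571, 571, 1), (573, 573, 1), (575, 23, 5), (577, 577, 1),
   (579, 579, 1), (581, 581, 1)]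

/-- table of the odd numbers, part 93 -/
def O93 : List (ℕ × ℕ × ℕ) := [
   (583, 583, 1), (585, 65, 3), (587, 587, 1), (589, 589, 1), (591, 591, 1), (593, 593, 1),
   (595, 595, 1), (597, 597, 1)]

/-- table of the odd numbers, part 94 -/
def O94 : List (ℕ × ℕ × ℕ) := [
   (599, 599, 1), (601, 601, 1), (603, 67, 3), (605, 5, 11), (607, 607, 1), (609, 609, 1),
   (611, 611, 1), (613, 613, 1)]

/-- table of the odd numbers, part 95 -/
def O95 : List (ℕ × ℕ × ℕ) := [
   (615, 615, 1), (617, 617, 1), (619, 619, 1), (621, 69, 3), (623, 623, 1), (625, 1, 25),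
   (627, 627, 1), (629, 629, 1)]

/-- table of the odd numbers, part 96 -/
def O96 : List (ℕ × ℕ × ℕ) := [
   (631, 631, 1), (633, 633, 1), (635, 635, 1), (637, 13, 7), (639, 71, 3), (641, 641, 1),
   (643, 643, 1), (645, 645, 1)]

/-- table of the odd numbers, part 97 -/
def O97 : List (ℕ × ℕ × ℕ) := [
   (647, 647, 1), (649, 649, 1), (651, 651, 1), (653, 653, 1), (655, 655, 1), (657, 73, 3),
   (659, 659, 1), (661, 661, 1)]

/-- table of the odd numbers, part 98 -/
def O98 : List (ℕ × ℕ × ℕ) := [
   (663, 663, 1), (665, 665, 1), (667, 667, 1), (669, 669, 1), (671, 671, 1), (673, 673, 1),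
   (675, 3, 15), (677, 677, 1)]

/-- table of the odd numbers, part 99 -/
def O99 : List (ℕ × ℕ × ℕ) := [
   (679, 679, 1), (681, 681, 1), (683, 683, 1), (685, 685, 1), (687, 687, 1), (689, 689, 1),
   (691, 691, 1), (693, 77, 3)]

/-- table of the odd numbers, part 100 -/
def O100 : List (ℕ × ℕ × ℕ) := [
   (695, 695, 1), (697, 697, 1), (699, 699, 1), (701, 701, 1), (703, 703, 1), (705, 705, 1),
   (707, 707, 1), (709, 709, 1)]

/-- table of the odd numbers, part 101 -/
def O101 : List (ℕ × ℕ × ℕ) := [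
   (711, 79, 3), (713, 713, 1), (715, 715, 1), (717, 717, 1), (719, 719, 1), (721, 721, 1),
   (723, 723, 1), (725, 29, 5)]

/-- table of the odd numbers, part 102 -/
def O102 : List (ℕ × ℕ × ℕ) := [
   (727, 727, 1), (729, 1, 27), (731, 731, 1), (733, 733, 1), (735, 15, 7), (737, 737, 1),
   (739, 739, 1), (741, 741, 1)]

/-- table of the odd numbers, part 103 -/
def O103 : List (ℕ × ℕ × ℕ) := [
   (743, 743, 1), (745, 745, 1), (747, 83, 3), (749, 749, 1), (751, 751, 1), (753, 753, 1),
   (755, 755, 1), (757, 757, 1)]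

/-- table of the odd numbers, part 104 -/
def O104 : List (ℕ × ℕ × ℕ) := [
   (759, 759, 1), (761, 761, 1), (763, 763, 1), (765, 85, 3), (767, 767, 1), (769, 769, 1),
   (771, 771, 1), (773, 773, 1)]

/-- table of the odd numbers, part 105 -/
def O105 : List (ℕ × ℕ × ℕ) := [
   (775, 31, 5), (777, 777, 1), (779, 779, 1), (781, 781, 1), (783, 87, 3), (785, 785, 1),
   (787, 787, 1), (789, 789, 1)]

/-- table of the odd numbers, part 106 -/
def O106 : List (ℕ × ℕ × ℕ) := [
   (791, 791, 1), (793, 793, 1), (795, 795, 1), (797, 797, 1), (799, 799, 1), (801, 89, 3),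
   (803, 803, 1), (805, 805, 1)]

/-- table of the odd numbers, part 107 -/
def O107 : List (ℕ × ℕ × ℕ) := [
   (807, 807, 1), (809, 809, 1), (811, 811, 1), (813, 813, 1), (815, 815, 1), (817, 817, 1),
   (819, 91, 3), (821, 821, 1)]

/-- table of the odd numbers, part 108 -/
def O108 : List (ℕ × ℕ × ℕ) := [
   (823, 823, 1), (825, 33, 5), (827, 827, 1), (829, 829, 1), (831, 831, 1), (833, 17, 7),
   (835, 835, 1), (837, 93, 3)]

/-- table of the odd numbers, part 109 -/
def O109 : List (ℕ × ℕ × ℕ) := [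
   (839, 839, 1), (841, 1, 29), (843, 843, 1), (845, 5, 13), (847, 7, 11), (849, 849, 1),
   (851, 851, 1), (853, 853, 1)]

/-- table of the odd numbers, part 110 -/
def O110 : List (ℕ × ℕ × ℕ) := [
   (855, 95, 3), (857, 857, 1), (859, 859, 1), (861, 861, 1), (863, 863, 1), (865, 865, 1),
   (867, 3, 17), (869, 869, 1)]

/-- table of the odd numbers, part 111 -/
def O111 : List (ℕ × ℕ × ℕ) := [
   (871, 871, 1), (873, 97, 3), (875, 35, 5), (877, 877, 1), (879, 879, 1), (881, 881, 1),
   (883, 883, 1), (885, 885, 1)]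

/-- table of the odd numbers, part 112 -/
def O112 : List (ℕ × ℕ × ℕ) := [
   (887, 887, 1), (889, 889, 1), (891, 11, 9), (893, 893, 1), (895, 895, 1), (897, 897, 1),
   (899, 899, 1), (901, 901, 1)]

/-- table of the odd numbers, part 113 -/
def O113 : List (ℕ × ℕ × ℕ) := [
   (903, 903, 1), (905, 905, 1)]

/-- table of the numbers `2` modulo `4`, part 0 -/
def E0 : List (ℕ × ℕ × ℕ) := [
   (2, 2, 1)]

/-- table of the numbers `2` modulo `4`, part 1 -/
def E1 : List (ℕ × ℕ × ℕ) := [
   (6, 6, 1)]

/-- table of the numbers `2` modulo `4`, part 2 -/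
def E2 : List (ℕ × ℕ × ℕ) := [
   (10, 10, 1)]

/-- table of the numbers `2` modulo `4`, part 3 -/
def E3 : List (ℕ × ℕ × ℕ) := [
   (14, 14, 1)]

/-- table of the numbers `2` modulo `4`, part 4 -/
def E4 : List (ℕ × ℕ × ℕ) := [
   (18, 2, 3)]

/-- table of the numbers `2` modulo `4`, part 5 -/
def E5 : List (ℕ × ℕ × ℕ) := [
   (22, 22, 1)]

/-- table of the numbers `2` modulo `4`, part 6 -/
def E6 : List (ℕ × ℕ × ℕ) := [
   (26, 26, 1)]

/-- table of the numbers `2` modulo `4`, part 7 -/
def E7 : List (ℕ × ℕ × ℕ) := [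
   (30, 30, 1), (34, 34, 1)]

/-- table of the numbers `2` modulo `4`, part 8 -/
def E8 : List (ℕ × ℕ × ℕ) := [
   (38, 38, 1), (42, 42, 1)]

/-- table of the numbers `2` modulo `4`, part 9 -/
def E9 : List (ℕ × ℕ × ℕ) := [
   (46, 46, 1)]

/-- table of the numbers `2` modulo `4`, part 10 -/
def E10 : List (ℕ × ℕ × ℕ) := [
   (50, 2, 5)]

/-- table of the numbers `2` modulo `4`, part 11 -/
def E11 : List (ℕ × ℕ × ℕ) := [
   (54, 6, 3), (58, 58, 1)]

/-- table of the numbers `2` modulo `4`, part 12 -/
def E12 : List (ℕ × ℕ × ℕ) := [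
   (62, 62, 1), (66, 66, 1)]

/-- table of the numbers `2` modulo `4`, part 13 -/
def E13 : List (ℕ × ℕ × ℕ) := [
   (70, 70, 1), (74, 74, 1)]

/-- table of the numbers `2` modulo `4`, part 14 -/
def E14 : List (ℕ × ℕ × ℕ) := [
   (78, 78, 1), (82, 82, 1), (86, 86, 1)]

/-- table of the numbers `2` modulo `4`, part 15 -/
def E15 : List (ℕ × ℕ × ℕ) := [
   (90, 10, 3)]

/-- table of the numbers `2` modulo `4`, part 16 -/
def E16 : List (ℕ × ℕ × ℕ) := [
   (94, 94, 1)]

/-- table of the numbers `2` modulo `4`, part 17 -/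
def E17 : List (ℕ × ℕ × ℕ) := [
   (98, 2, 7)]

/-- table of the numbers `2` modulo `4`, part 18 -/
def E18 : List (ℕ × ℕ × ℕ) := [
   (102, 102, 1), (106, 106, 1), (110, 110, 1)]

/-- table of the numbers `2` modulo `4`, part 19 -/
def E19 : List (ℕ × ℕ × ℕ) := [
   (114, 114, 1), (118, 118, 1), (122, 122, 1)]

/-- table of the numbers `2` modulo `4`, part 20 -/
def E20 : List (ℕ × ℕ × ℕ) := [
   (126, 14, 3)]

/-- table of the numbers `2` modulo `4`, part 21 -/
def E21 : List (ℕ × ℕ × ℕ) := [
   (130, 130, 1), (134, 134, 1), (138, 138, 1)]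

/-- table of the numbers `2` modulo `4`, part 22 -/
def E22 : List (ℕ × ℕ × ℕ) := [
   (142, 142, 1), (146, 146, 1), (150, 6, 5)]

/-- table of the numbers `2` modulo `4`, part 23 -/
def E23 : List (ℕ × ℕ × ℕ) := [
   (154, 154, 1), (158, 158, 1)]

/-- table of the numbers `2` modulo `4`, part 24 -/
def E24 : List (ℕ × ℕ × ℕ) := [
   (162, 2, 9)]

/-- table of the numbers `2` modulo `4`, part 25 -/
def E25 : List (ℕ × ℕ × ℕ) := [
   (166, 166, 1), (170, 170, 1), (174, 174, 1), (178, 178, 1)]

/-- table of the numbers `2` modulo `4`, part 26 -/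
def E26 : List (ℕ × ℕ × ℕ) := [
   (182, 182, 1), (186, 186, 1), (190, 190, 1)]

/-- table of the numbers `2` modulo `4`, part 27 -/
def E27 : List (ℕ × ℕ × ℕ) := [
   (194, 194, 1), (198, 22, 3), (202, 202, 1)]

/-- table of the numbers `2` modulo `4`, part 28 -/
def E28 : List (ℕ × ℕ × ℕ) := [
   (206, 206, 1), (210, 210, 1), (214, 214, 1), (218, 218, 1), (222, 222, 1)]

/-- table of the numbers `2` modulo `4`, part 29 -/
def E29 : List (ℕ × ℕ × ℕ) := [
   (226, 226, 1), (230, 230, 1)]

/-- table of the numbers `2` modulo `4`, part 30 -/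
def E30 : List (ℕ × ℕ × ℕ) := [
   (234, 26, 3), (238, 238, 1)]

/-- table of the numbers `2` modulo `4`, part 31 -/
def E31 : List (ℕ × ℕ × ℕ) := [
   (242, 2, 11)]

/-- table of the numbers `2` modulo `4`, part 32 -/
def E32 : List (ℕ × ℕ × ℕ) := [
   (246, 246, 1), (250, 10, 5)]

/-- table of the numbers `2` modulo `4`, part 33 -/
def E33 : List (ℕ × ℕ × ℕ) := [
   (254, 254, 1), (258, 258, 1), (262, 262, 1), (266, 266, 1)]

/-- table of the numbers `2` modulo `4`, part 34 -/
def E34 : List (ℕ × ℕ × ℕ) := [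
   (270, 30, 3), (274, 274, 1), (278, 278, 1), (282, 282, 1), (286, 286, 1)]

/-- table of the numbers `2` modulo `4`, part 35 -/
def E35 : List (ℕ × ℕ × ℕ) := [
   (290, 290, 1), (294, 6, 7), (298, 298, 1), (302, 302, 1)]

/-- table of the numbers `2` modulo `4`, part 36 -/
def E36 : List (ℕ × ℕ × ℕ) := [
   (306, 34, 3), (310, 310, 1), (314, 314, 1), (318, 318, 1)]

/-- table of the numbers `2` modulo `4`, part 37 -/
def E37 : List (ℕ × ℕ × ℕ) := [
   (322, 322, 1), (326, 326, 1), (330, 330, 1), (334, 334, 1)]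

/-- table of the numbers `2` modulo `4`, part 38 -/
def E38 : List (ℕ × ℕ × ℕ) := [
   (338, 2, 13)]

/-- table of the numbers `2` modulo `4`, part 39 -/
def E39 : List (ℕ × ℕ × ℕ) := [
   (342, 38, 3), (346, 346, 1)]

/-- table of the numbers `2` modulo `4`, part 40 -/
def E40 : List (ℕ × ℕ × ℕ) := [
   (350, 14, 5), (354, 354, 1), (358, 358, 1), (362, 362, 1)]

/-- table of the numbers `2` modulo `4`, part 41 -/
def E41 : List (ℕ × ℕ × ℕ) := [
   (366, 366, 1), (370, 370, 1), (374, 374, 1), (378, 42, 3), (382, 382, 1), (386, 386, 1),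
   (390, 390, 1)]

/-- table of the numbers `2` modulo `4`, part 42 -/
def E42 : List (ℕ × ℕ × ℕ) := [
   (394, 394, 1), (398, 398, 1), (402, 402, 1), (406, 406, 1), (410, 410, 1), (414, 46, 3)]

/-- table of the numbers `2` modulo `4`, part 43 -/
def E43 : List (ℕ × ℕ × ℕ) := [
   (418, 418, 1), (422, 422, 1), (426, 426, 1), (430, 430, 1), (434, 434, 1), (438, 438, 1),
   (442, 442, 1), (446, 446, 1)]

/-- table of the numbers `2` modulo `4`, part 44 -/
def E44 : List (ℕ × ℕ × ℕ) := [
   (450, 2, 15), (454, 454, 1)]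

/-- table of the numbers `2` modulo `4`, part 45 -/
def E45 : List (ℕ × ℕ × ℕ) := [
   (458, 458, 1), (462, 462, 1), (466, 466, 1), (470, 470, 1), (474, 474, 1), (478, 478, 1),
   (482, 482, 1), (486, 6, 9)]

/-- table of the numbers `2` modulo `4`, part 46 -/
def E46 : List (ℕ × ℕ × ℕ) := [
   (490, 10, 7), (494, 494, 1), (498, 498, 1), (502, 502, 1), (506, 506, 1), (510, 510, 1)]

/-- table of the numbers `2` modulo `4`, part 47 -/
def E47 : List (ℕ × ℕ × ℕ) := [
   (514, 514, 1), (518, 518, 1), (522, 58, 3), (526, 526, 1), (530, 530, 1), (534, 534, 1),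
   (538, 538, 1), (542, 542, 1)]

/-- table of the numbers `2` modulo `4`, part 48 -/
def E48 : List (ℕ × ℕ × ℕ) := [
   (546, 546, 1), (550, 22, 5), (554, 554, 1), (558, 62, 3), (562, 562, 1), (566, 566, 1),
   (570, 570, 1), (574, 574, 1)]

/-- table of the numbers `2` modulo `4`, part 49 -/
def E49 : List (ℕ × ℕ × ℕ) := [
   (578, 2, 17), (582, 582, 1), (586, 586, 1), (590, 590, 1), (594, 66, 3), (598, 598, 1)]

/-- table of the numbers `2` modulo `4`, part 50 -/
def E50 : List (ℕ × ℕ × ℕ) := [
   (602, 602, 1), (606, 606, 1), (610, 610, 1), (614, 614, 1), (618, 618, 1), (622, 622, 1),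
   (626, 626, 1), (630, 70, 3)]

/-- table of the numbers `2` modulo `4`, part 51 -/
def E51 : List (ℕ × ℕ × ℕ) := [
   (634, 634, 1), (638, 638, 1), (642, 642, 1), (646, 646, 1), (650, 26, 5), (654, 654, 1),
   (658, 658, 1), (662, 662, 1)]

/-- table of the numbers `2` modulo `4`, part 52 -/
def E52 : List (ℕ × ℕ × ℕ) := [
   (666, 74, 3), (670, 670, 1), (674, 674, 1), (678, 678, 1), (682, 682, 1), (686, 14, 7),
   (690, 690, 1), (694, 694, 1)]

/-- table of the numbers `2` modulo `4`, part 53 -/
def E53 : List (ℕ × ℕ × ℕ) := [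
   (698, 698, 1), (702, 78, 3), (706, 706, 1), (710, 710, 1), (714, 714, 1), (718, 718, 1),
   (722, 2, 19), (726, 6, 11)]

/-- table of the numbers `2` modulo `4`, part 54 -/
def E54 : List (ℕ × ℕ × ℕ) := [
   (730, 730, 1), (734, 734, 1), (738, 82, 3), (742, 742, 1), (746, 746, 1), (750, 30, 5),
   (754, 754, 1), (758, 758, 1)]

/-- table of the numbers `2` modulo `4`, part 55 -/
def E55 : List (ℕ × ℕ × ℕ) := [
   (762, 762, 1), (766, 766, 1), (770, 770, 1), (774, 86, 3), (778, 778, 1), (782, 782, 1),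
   (786, 786, 1), (790, 790, 1)]

/-- table of the numbers `2` modulo `4`, part 56 -/
def E56 : List (ℕ × ℕ × ℕ) := [
   (794, 794, 1), (798, 798, 1), (802, 802, 1), (806, 806, 1), (810, 10, 9), (814, 814, 1),
   (818, 818, 1), (822, 822, 1)]

/-- table of the numbers `2` modulo `4`, part 57 -/
def E57 : List (ℕ × ℕ × ℕ) := [
   (826, 826, 1), (830, 830, 1), (834, 834, 1), (838, 838, 1), (842, 842, 1), (846, 94, 3),
   (850, 34, 5), (854, 854, 1)]

/-- table of the numbers `2` modulo `4`, part 58 -/
def E58 : List (ℕ × ℕ × ℕ) := [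
   (858, 858, 1), (862, 862, 1), (866, 866, 1), (870, 870, 1), (874, 874, 1), (878, 878, 1),
   (882, 2, 21), (886, 886, 1)]

/-- table of the numbers `2` modulo `4`, part 59 -/
def E59 : List (ℕ × ℕ × ℕ) := [
   (890, 890, 1), (894, 894, 1), (898, 898, 1), (902, 902, 1), (906, 906, 1)]

/-- the pairs `(y, b)` with `b` the squarefree part of the odd number `y`, part 0 -/
def Y0 : List (ℕ × ℕ) := [
   (1, 1), (3, 3), (5, 5), (7, 7), (9, 1), (11, 11), (13, 13), (15, 15), (17, 17), (19, 19),
   (21, 21), (23, 23), (25, 1), (27, 3), (29, 29), (31, 31), (33, 33), (35, 35), (37, 37),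
   (39, 39), (41, 41), (43, 43), (45, 5), (47, 47), (49, 1), (51, 51), (53, 53), (55, 55),
   (57, 57), (59, 59)]

/-- the pairs `(y, b)` with `b` the squarefree part of the odd number `y`, part 1 -/
def Y1 : List (ℕ × ℕ) := [
   (61, 61), (63, 7), (65, 65), (67, 67), (69, 69), (71, 71), (73, 73), (75, 3), (77, 77),
   (79, 79), (81, 1), (83, 83), (85, 85), (87, 87), (89, 89), (91, 91), (93, 93), (95, 95),
   (97, 97), (99, 11), (101, 101), (103, 103), (105, 105), (107, 107), (109, 109), (111, 111),
   (113, 113), (115, 115), (117, 13), (119, 119)]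

/-- the pairs `(y, b)` with `b` the squarefree part of the odd number `y`, part 2 -/
def Y2 : List (ℕ × ℕ) := [
   (121, 1), (123, 123), (125, 5), (127, 127), (129, 129), (131, 131), (133, 133), (135, 15),
   (137, 137), (139, 139), (141, 141), (143, 143), (145, 145), (147, 3), (149, 149), (151, 151),
   (153, 17), (155, 155), (157, 157), (159, 159), (161, 161), (163, 163), (165, 165), (167, 167),
   (169, 1), (171, 19), (173, 173), (175, 7), (177, 177), (179, 179)]

/-- the pairs `(y, b)` with `b` the squarefree part of the odd number `y`, part 3 -/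
def Y3 : List (ℕ × ℕ) := [
   (181, 181), (183, 183), (185, 185), (187, 187), (189, 21), (191, 191), (193, 193), (195, 195),
   (197, 197), (199, 199), (201, 201), (203, 203), (205, 205), (207, 23), (209, 209), (211, 211),
   (213, 213), (215, 215), (217, 217), (219, 219), (221, 221), (223, 223), (225, 1), (227, 227),
   (229, 229), (231, 231), (233, 233), (235, 235), (237, 237), (239, 239)]

/-- the pairs `(y, b)` with `b` the squarefree part of the odd number `y`, part 4 -/
def Y4 : List (ℕ × ℕ) := [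
   (241, 241), (243, 3), (245, 5), (247, 247), (249, 249), (251, 251), (253, 253), (255, 255),
   (257, 257), (259, 259), (261, 29), (263, 263), (265, 265), (267, 267), (269, 269), (271, 271),
   (273, 273), (275, 11), (277, 277), (279, 31), (281, 281), (283, 283), (285, 285), (287, 287),
   (289, 1), (291, 291), (293, 293), (295, 295), (297, 33), (299, 299)]

/-- the pairs `(y, b)` with `b` the squarefree part of the odd number `y`, part 5 -/
def Y5 : List (ℕ × ℕ) := [
   (301, 301), (303, 303), (305, 305), (307, 307), (309, 309), (311, 311), (313, 313), (315, 35),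
   (317, 317), (319, 319), (321, 321), (323, 323), (325, 13), (327, 327), (329, 329), (331, 331),
   (333, 37), (335, 335), (337, 337), (339, 339), (341, 341), (343, 7), (345, 345), (347, 347),
   (349, 349), (351, 39), (353, 353), (355, 355), (357, 357), (359, 359)]

/-- the pairs `(y, b)` with `b` the squarefree part of the odd number `y`, part 6 -/
def Y6 : List (ℕ × ℕ) := [
   (361, 1), (363, 3), (365, 365), (367, 367), (369, 41), (371, 371), (373, 373), (375, 15),
   (377, 377), (379, 379), (381, 381), (383, 383), (385, 385), (387, 43), (389, 389), (391, 391),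
   (393, 393), (395, 395), (397, 397), (399, 399), (401, 401), (403, 403), (405, 5), (407, 407),
   (409, 409), (411, 411), (413, 413), (415, 415), (417, 417), (419, 419)]

/-- the pairs `(y, b)` with `b` the squarefree part of the odd number `y`, part 7 -/
def Y7 : List (ℕ × ℕ) := [
   (421, 421), (423, 47), (425, 17), (427, 427), (429, 429), (431, 431), (433, 433), (435, 435),
   (437, 437), (439, 439), (441, 1), (443, 443), (445, 445), (447, 447), (449, 449), (451, 451),
   (453, 453), (455, 455), (457, 457), (459, 51), (461, 461), (463, 463), (465, 465), (467, 467),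
   (469, 469), (471, 471), (473, 473), (475, 19), (477, 53), (479, 479)]

/-- the pairs `(y, b)` with `b` the squarefree part of the odd number `y`, part 8 -/
def Y8 : List (ℕ × ℕ) := [
   (481, 481), (483, 483), (485, 485), (487, 487), (489, 489), (491, 491), (493, 493), (495, 55),
   (497, 497), (499, 499), (501, 501), (503, 503), (505, 505), (507, 3), (509, 509), (511, 511),
   (513, 57), (515, 515), (517, 517), (519, 519), (521, 521), (523, 523), (525, 21), (527, 527),
   (529, 1), (531, 59), (533, 533), (535, 535), (537, 537), (539, 11)]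

/-- the pairs `(y, b)` with `b` the squarefree part of the odd number `y`, part 9 -/
def Y9 : List (ℕ × ℕ) := [
   (541, 541), (543, 543), (545, 545), (547, 547), (549, 61), (551, 551), (553, 553), (555, 555),
   (557, 557), (559, 559), (561, 561), (563, 563), (565, 565), (567, 7), (569, 569), (571, 571),
   (573, 573), (575, 23), (577, 577), (579, 579), (581, 581), (583, 583), (585, 65), (587, 587),
   (589, 589), (591, 591), (593, 593), (595, 595), (597, 597), (599, 599)]

/-- the pairs `(y, b)` with `b` the squarefree part of the odd number `y`, part 10 -/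
def Y10 : List (ℕ × ℕ) := [
   (601, 601), (603, 67), (605, 5), (607, 607), (609, 609), (611, 611), (613, 613), (615, 615),
   (617, 617), (619, 619), (621, 69), (623, 623), (625, 1), (627, 627), (629, 629), (631, 631),
   (633, 633), (635, 635), (637, 13), (639, 71), (641, 641), (643, 643), (645, 645), (647, 647),
   (649, 649), (651, 651), (653, 653), (655, 655), (657, 73), (659, 659)]

/-- the pairs `(y, b)` with `b` the squarefree part of the odd number `y`, part 11 -/
def Y11 : List (ℕ × ℕ) := [
   (661, 661), (663, 663), (665, 665), (667, 667), (669, 669), (671, 671), (673, 673), (675, 3),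
   (677, 677), (679, 679), (681, 681), (683, 683), (685, 685), (687, 687), (689, 689),
   (691, 691), (693, 77), (695, 695), (697, 697), (699, 699), (701, 701), (703, 703), (705, 705),
   (707, 707), (709, 709), (711, 79), (713, 713), (715, 715), (717, 717), (719, 719)]

/-- the pairs `(y, b)` with `b` the squarefree part of the odd number `y`, part 12 -/
def Y12 : List (ℕ × ℕ) := [
   (721, 721), (723, 723), (725, 29), (727, 727), (729, 1), (731, 731), (733, 733), (735, 15),
   (737, 737), (739, 739), (741, 741), (743, 743), (745, 745), (747, 83), (749, 749), (751, 751),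
   (753, 753), (755, 755), (757, 757), (759, 759), (761, 761), (763, 763), (765, 85), (767, 767),
   (769, 769), (771, 771), (773, 773), (775, 31), (777, 777), (779, 779)]

/-- the pairs `(y, b)` with `b` the squarefree part of the odd number `y`, part 13 -/
def Y13 : List (ℕ × ℕ) := [
   (781, 781), (783, 87), (785, 785), (787, 787), (789, 789), (791, 791), (793, 793), (795, 795),
   (797, 797), (799, 799), (801, 89), (803, 803), (805, 805), (807, 807), (809, 809), (811, 811),
   (813, 813), (815, 815), (817, 817), (819, 91), (821, 821), (823, 823), (825, 33), (827, 827),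
   (829, 829), (831, 831), (833, 17), (835, 835), (837, 93), (839, 839)]

/-- the pairs `(y, b)` with `b` the squarefree part of the odd number `y`, part 14 -/
def Y14 : List (ℕ × ℕ) := [
   (841, 1), (843, 843), (845, 5), (847, 7), (849, 849), (851, 851), (853, 853), (855, 95),
   (857, 857), (859, 859), (861, 861), (863, 863), (865, 865), (867, 3), (869, 869), (871, 871),
   (873, 97), (875, 35), (877, 877), (879, 879), (881, 881), (883, 883), (885, 885), (887, 887),
   (889, 889), (891, 11), (893, 893), (895, 895), (897, 897), (899, 899)]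

/-- the pairs `(y, b)` with `b` the squarefree part of the odd number `y`, part 15 -/
def Y15 : List (ℕ × ℕ) := [
   (901, 901), (903, 903), (905, 905)]

/-- the pairs `(y, b)` with `b` the squarefree part of `y`, `y` odd, `y < 907` -/
def LY : List (ℕ × ℕ) :=
  Y0 ++ (Y1 ++ (Y2 ++ (Y3 ++ (Y4 ++ (Y5 ++ (Y6 ++ (Y7 ++ (Y8 ++ (Y9 ++ (Y10 ++ (Y11 ++ (Y12 ++ (Y13 ++ (Y14 ++ (Y15)))))))))))))))

/-- the triples `(y, b, k)` with `y = b k²`, `b` squarefree, `y` odd, `y < 907` -/
def LO : List (ℕ × ℕ × ℕ) := O0 ++ O1 ++ O2 ++ O3 ++ O4 ++ O5 ++ O6 ++ O7 ++ O8 ++ O9 ++ O10 ++ O11 ++ O12 ++ O13 ++ O14 ++ O15 ++ O16 ++ O17 ++ O18 ++ O19 ++ O20 ++ O21 ++ O22 ++ O23 ++ O24 ++ O25 ++ O26 ++ O27 ++ O28 ++ O29 ++ O30 ++ O31 ++ O32 ++ O33 ++ O34 ++ O35 ++ O36 ++ O37 ++ O38 ++ O39 ++ O40 ++ O41 ++ O42 ++ O43 ++ O44 ++ O45 ++ O46 ++ O47 ++ O48 ++ O49 ++ O50 ++ O51 ++ O52 ++ O53 ++ O54 ++ O55 ++ O56 ++ O57 ++ O58 ++ O59 ++ O60 ++ O61 ++ O62 ++ O63 ++ O64 ++ O65 ++ O66 ++ O67 ++ O68 ++ O69 ++ O70 ++ O71 ++ O72 ++ O73 ++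 O74 ++ O75 ++ O76 ++ O77 ++ O78 ++ O79 ++ O80 ++ O81 ++ O82 ++ O83 ++ O84 ++ O85 ++ O86 ++ O87 ++ O88 ++ O89 ++ O90 ++ O91 ++ O92 ++ O93 ++ O94 ++ O95 ++ O96 ++ O97 ++ O98 ++ O99 ++ O100 ++ O101 ++ O102 ++ O103 ++ O104 ++ O105 ++ O106 ++ O107 ++ O108 ++ O109 ++ O110 ++ O111 ++ O112 ++ O113

/-- the triples `(x, a, h)` with `x = a h²`, `a` squarefree, `x` congruent to `2` modulo `4`, `x < 907` -/
def LE : List (ℕ × ℕ × ℕ) := E0 ++ E1 ++ E2 ++ E3 ++ E4 ++ E5 ++ E6 ++ E7 ++ E8 ++ E9 ++ E10 ++ E11 ++ E12 ++ E13 ++ E14 ++ E15 ++ E16 ++ E17 ++ E18 ++ E19 ++ E20 ++ E21 ++ E22 ++ E23 ++ E24 ++ E25 ++ E26 ++ E27 ++ E28 ++ E29 ++ E30 ++ E31 ++ E32 ++ E33 ++ E34 ++ E35 ++ E36 ++ E37 ++ E38 ++ E39 ++ E40 ++ E41 ++ E42 ++ E43 ++ E44 ++ E45 ++ E46 ++ E47 ++ E48 ++ E49 ++ E50 ++ E51 ++ E52 ++ E53 ++ E54 ++ E55 ++ E56 ++ E57 ++ E58 ++ E59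

/-- no square of a number from `2` to `31` divides `b` -/
noncomputable def sqf (b : ℕ) : Bool :=
  allBelow (fun p => or (Nat.blt p 2) (not (Nat.beq (Nat.mod b (Nat.mul p p)) 0))) 32

theorem sqf_spec (b : ℕ) (h0 : 0 < b) (h1 : b < 1024) (h : sqf b = true) : Squarefree b := by
  intro p hp
  have hle : p * p ≤ b := Nat.le_of_dvd h0 hp
  have hlt : p < 32 := by
    by_contra hc
    push Not at hc
    have : 32 * 32 ≤ p * p := Nat.mul_le_mul hc hc
    omega
  have h2 : (Nat.blt p 2 || !(Nat.beq (b % (p * p)) 0)) = true := allBelow_spec _ _ h p hlt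
  rw [Bool.or_eq_true] at h2
  rcases h2 with h2 | h2
  · have h3 : p < 2 := Nat.blt_eq.mp h2
    interval_cases p
    · simp at hp; omega
    · exact isUnit_one
  · exfalso
    rw [Nat.mod_eq_zero_of_dvd hp] at h2
    exact absurd h2 (by decide)

/-- the check of one entry of the tables -/
noncomputable def okEntry (q : ℕ × ℕ × ℕ) : Bool :=
  and (Nat.beq q.1 (Nat.mul q.2.1 (Nat.mul q.2.2 q.2.2)))
    (and (Nat.blt 0 q.2.1) (and (Nat.blt q.2.1 1024) (sqf q.2.1)))

theorem LO_ok : LO.all okEntry = true := by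
  decide +kernel

theorem LE_ok : LE.all okEntry = true := by
  decide +kernel

theorem LO_map : LO.map (fun q => q.1) = (List.range 453).map (fun i => 2 * i + 1) := by
  decide +kernel

theorem LE_map : LE.map (fun q => q.1) = (List.range 227).map (fun i => 4 * i + 2) := by
  decide +kernel

theorem entry_spec (q : ℕ × ℕ × ℕ) (h5 : okEntry q = true) :
    q.1 = q.2.1 * (q.2.2 * q.2.2) ∧ Squarefree q.2.1 := by
  rw [okEntry, Bool.and_eq_true, Bool.and_eq_true, Bool.and_eq_true] at h5
  obtain ⟨h6, h7, h8, h9⟩ := h5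
  exact ⟨Nat.eq_of_beq_eq_true h6, sqf_spec _ (Nat.blt_eq.mp h7) (Nat.blt_eq.mp h8) h9⟩

theorem LO_spec (y : ℕ) (h0 : y % 2 = 1) (h1 : y < 907) : ∃ b k : ℕ, (y, b, k) ∈ LO ∧
    y = b * (k * k) ∧ Squarefree b := by
  have h2 : y ∈ LO.map (fun q => q.1) := by
    rw [LO_map, List.mem_map]
    exact ⟨y / 2, List.mem_range.2 (by omega), by omega⟩
  obtain ⟨q, hq, h4⟩ := List.mem_map.1 h2
  obtain ⟨h6, h7⟩ := entry_spec q (List.all_eq_true.1 LO_ok q hq)
  refine ⟨q.2.1, q.2.2, ?_, ?_, h7⟩
  · rw [← h4]; exact hq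
  · rw [← h4]; exact h6

theorem LE_spec (y : ℕ) (h0 : y % 4 = 2) (h1 : y < 907) : ∃ b k : ℕ, (y, b, k) ∈ LE ∧
    y = b * (k * k) ∧ Squarefree b := by
  have h2 : y ∈ LE.map (fun q => q.1) := by
    rw [LE_map, List.mem_map]
    exact ⟨y / 4, List.mem_range.2 (by omega), by omega⟩
  obtain ⟨q, hq, h4⟩ := List.mem_map.1 h2
  obtain ⟨h6, h7⟩ := entry_spec q (List.all_eq_true.1 LE_ok q hq)
  refine ⟨q.2.1, q.2.2, ?_, ?_, h7⟩
  · rw [← h4]; exact hq
  · rw [← h4]; exact h6

/-- the test for all pairs with first entry `p` -/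
noncomputable def rowTest (p : ℕ × ℕ × ℕ) : Bool := LY.all fun q => test p.1 p.2.1 q.1 q.2

theorem LY_eq : LO.map (fun q => (q.1, q.2.1)) = LY := by
  decide +kernel

end Pool.Agent.H62.Sun18
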