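import Pool.Agent.H62.Sun18.Base

/-!
Kernel computation for the triple `(18, 38, 18)`, part 0.
-/

set_option autoImplicit false
set_option maxRecDepth 100000

namespace Pool.Agent.H62.Sun18

theorem rowsO0 : O0.all rowTest = true := by
  decide +kernel

theorem rowsO1 : O1.all rowTest = true := by
  decide +kernel

theorem rowsO2 : O2.all rowTest = true := by
  decide +kernel

theorem rowsO3 : O3.all rowTest = true := by
  decide +kernel

theorem rowsO4 : O4.all rowTest = true := by
  decide +kernel

theorem rowsO5 : O5.all rowTest = true := by
  decide +kernel

theorem rowsO6 : O6.all rowTest = true := by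
  decide +kernel

theorem rowsO7 : O7.all rowTest = true := by
  decide +kernel

theorem rowsO8 : O8.all rowTest = true := by
  decide +kernel

theorem rowsO9 : O9.all rowTest = true := by
  decide +kernel

theorem rowsO10 : O10.all rowTest = true := by
  decide +kernel

theorem rowsO11 : O11.all rowTest = true := by
  decide +kernel

theorem rowsO12 : O12.all rowTest = true := by
  decide +kernel

theorem rowsO13 : O13.all rowTest = true := by
  decide +kernel

theorem rowsO14 : O14.all rowTest = true := by
  decide +kernel

theorem rowsO15 : O15.all rowTest = true := by
  decide +kernel

theorem rowsO16 : O16.all rowTest = true := by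
  decide +kernel

theorem rowsO17 : O17.all rowTest = true := by
  decide +kernel

theorem rowsO18 : O18.all rowTest = true := by
  decide +kernel

theorem rowsO19 : O19.all rowTest = true := by
  decide +kernel

theorem rowsO20 : O20.all rowTest = true := by
  decide +kernel

theorem rowsO21 : O21.all rowTest = true := by
  decide +kernel

theorem rowsO22 : O22.all rowTest = true := by
  decide +kernel

theorem rowsO23 : O23.all rowTest = true := by
  decide +kernel

theorem rowsO24 : O24.all rowTest = true := by
  decide +kernel

end Pool.Agent.H62.Sun18
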