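import Pool.Agent.H62.Sun18.Base

/-!
Kernel computation for the triple `(18, 38, 18)`, part 1.
-/

set_option autoImplicit false
set_option maxRecDepth 100000

namespace Pool.Agent.H62.Sun18

theorem rowsO25 : O25.all rowTest = true := by
  decide +kernel

theorem rowsO26 : O26.all rowTest = true := by
  decide +kernel

theorem rowsO27 : O27.all rowTest = true := by
  decide +kernel

theorem rowsO28 : O28.all rowTest = true := by
  decide +kernel

theorem rowsO29 : O29.all rowTest = true := by
  decide +kernel

theorem rowsO30 : O30.all rowTest = true := by
  decide +kernel

theorem rowsO31 : O31.all rowTest = true := by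
  decide +kernel

theorem rowsO32 : O32.all rowTest = true := by
  decide +kernel

theorem rowsO33 : O33.all rowTest = true := by
  decide +kernel

theorem rowsO34 : O34.all rowTest = true := by
  decide +kernel

theorem rowsO35 : O35.all rowTest = true := by
  decide +kernel

theorem rowsO36 : O36.all rowTest = true := by
  decide +kernel

theorem rowsO37 : O37.all rowTest = true := by
  decide +kernel

theorem rowsO38 : O38.all rowTest = true := by
  decide +kernel

theorem rowsO39 : O39.all rowTest = true := by
  decide +kernel

theorem rowsO40 : O40.all rowTest = true := by
  decide +kernel

theorem rowsO41 : O41.all rowTest = true := by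
  decide +kernel

theorem rowsO42 : O42.all rowTest = true := by
  decide +kernel

theorem rowsO43 : O43.all rowTest = true := by
  decide +kernel

theorem rowsO44 : O44.all rowTest = true := by
  decide +kernel

theorem rowsO45 : O45.all rowTest = true := by
  decide +kernel

theorem rowsO46 : O46.all rowTest = true := by
  decide +kernel

theorem rowsO47 : O47.all rowTest = true := by
  decide +kernel

theorem rowsO48 : O48.all rowTest = true := by
  decide +kernel

theorem rowsO49 : O49.all rowTest = true := by
  decide +kernel

theorem rowsO50 : O50.all rowTest = true := by
  decide +kernel

theorem rowsO51 : O51.all rowTest = true := by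
  decide +kernel

end Pool.Agent.H62.Sun18
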