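import Pool.Agent.H62.Sun18.Base

/-!
Kernel computation for the triple `(18, 38, 18)`, part 2.
-/

set_option autoImplicit false
set_option maxRecDepth 100000

namespace Pool.Agent.H62.Sun18

theorem rowsO52 : O52.all rowTest = true := by
  decide +kernel

theorem rowsO53 : O53.all rowTest = true := by
  decide +kernel

theorem rowsO54 : O54.all rowTest = true := by
  decide +kernel

theorem rowsO55 : O55.all rowTest = true := by
  decide +kernel

theorem rowsO56 : O56.all rowTest = true := by
  decide +kernel

theorem rowsO57 : O57.all rowTest = true := by
  decide +kernel

theorem rowsO58 : O58.all rowTest = true := by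
  decide +kernel

theorem rowsO59 : O59.all rowTest = true := by
  decide +kernel

theorem rowsO60 : O60.all rowTest = true := by
  decide +kernel

theorem rowsO61 : O61.all rowTest = true := by
  decide +kernel

theorem rowsO62 : O62.all rowTest = true := by
  decide +kernel

theorem rowsO63 : O63.all rowTest = true := by
  decide +kernel

theorem rowsO64 : O64.all rowTest = true := by
  decide +kernel

theorem rowsO65 : O65.all rowTest = true := by
  decide +kernel

theorem rowsO66 : O66.all rowTest = true := by
  decide +kernel

theorem rowsO67 : O67.all rowTest = true := by
  decide +kernel

theorem rowsO68 : O68.all rowTest = true := by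
  decide +kernel

theorem rowsO69 : O69.all rowTest = true := by
  decide +kernel

theorem rowsO70 : O70.all rowTest = true := by
  decide +kernel

theorem rowsO71 : O71.all rowTest = true := by
  decide +kernel

theorem rowsO72 : O72.all rowTest = true := by
  decide +kernel

theorem rowsO73 : O73.all rowTest = true := by
  decide +kernel

theorem rowsO74 : O74.all rowTest = true := by
  decide +kernel

theorem rowsO75 : O75.all rowTest = true := by
  decide +kernel

theorem rowsO76 : O76.all rowTest = true := by
  decide +kernel

theorem rowsO77 : O77.all rowTest = true := by
  decide +kernel

theorem rowsO78 : O78.all rowTest = true := by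
  decide +kernel

end Pool.Agent.H62.Sun18
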