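import Pool.Agent.H62.Sun18.Base

/-!
Kernel computation for the triple `(18, 38, 18)`, part 3.
-/

set_option autoImplicit false
set_option maxRecDepth 100000

namespace Pool.Agent.H62.Sun18

theorem rowsO79 : O79.all rowTest = true := by
  decide +kernel

theorem rowsO80 : O80.all rowTest = true := by
  decide +kernel

theorem rowsO81 : O81.all rowTest = true := by
  decide +kernel

theorem rowsO82 : O82.all rowTest = true := by
  decide +kernel

theorem rowsO83 : O83.all rowTest = true := by
  decide +kernel

theorem rowsO84 : O84.all rowTest = true := by
  decide +kernel

theorem rowsO85 : O85.all rowTest = true := by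
  decide +kernel

theorem rowsO86 : O86.all rowTest = true := by
  decide +kernel

theorem rowsO87 : O87.all rowTest = true := by
  decide +kernel

theorem rowsO88 : O88.all rowTest = true := by
  decide +kernel

theorem rowsO89 : O89.all rowTest = true := by
  decide +kernel

theorem rowsO90 : O90.all rowTest = true := by
  decide +kernel

theorem rowsO91 : O91.all rowTest = true := by
  decide +kernel

theorem rowsO92 : O92.all rowTest = true := by
  decide +kernel

theorem rowsO93 : O93.all rowTest = true := by
  decide +kernel

theorem rowsO94 : O94.all rowTest = true := by
  decide +kernel

theorem rowsO95 : O95.all rowTest = true := by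
  decide +kernel

theorem rowsO96 : O96.all rowTest = true := by
  decide +kernel

theorem rowsO97 : O97.all rowTest = true := by
  decide +kernel

theorem rowsO98 : O98.all rowTest = true := by
  decide +kernel

theorem rowsO99 : O99.all rowTest = true := by
  decide +kernel

theorem rowsO100 : O100.all rowTest = true := by
  decide +kernel

theorem rowsO101 : O101.all rowTest = true := by
  decide +kernel

theorem rowsO102 : O102.all rowTest = true := by
  decide +kernel

theorem rowsO103 : O103.all rowTest = true := by
  decide +kernel

theorem rowsO104 : O104.all rowTest = true := by
  decide +kernel

theorem rowsO105 : O105.all rowTest = true := by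
  decide +kernel

theorem rowsO106 : O106.all rowTest = true := by
  decide +kernel

theorem rowsO107 : O107.all rowTest = true := by
  decide +kernel

theorem rowsO108 : O108.all rowTest = true := by
  decide +kernel

theorem rowsO109 : O109.all rowTest = true := by
  decide +kernel

theorem rowsO110 : O110.all rowTest = true := by
  decide +kernel

theorem rowsO111 : O111.all rowTest = true := by
  decide +kernel

theorem rowsO112 : O112.all rowTest = true := by
  decide +kernel

theorem rowsO113 : O113.all rowTest = true := by
  decide +kernel

theorem rowsE0 : E0.all rowTest = true := by
  decide +kernel

theorem rowsE1 : E1.all rowTest = true := by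
  decide +kernel

theorem rowsE2 : E2.all rowTest = true := by
  decide +kernel

theorem rowsE3 : E3.all rowTest = true := by
  decide +kernel

theorem rowsE4 : E4.all rowTest = true := by
  decide +kernel

end Pool.Agent.H62.Sun18
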