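import Pool.Agent.H62.Sun18.Base

/-!
Kernel computation for the triple `(18, 38, 18)`, part 4.
-/

set_option autoImplicit false
set_option maxRecDepth 100000

namespace Pool.Agent.H62.Sun18

theorem rowsE5 : E5.all rowTest = true := by
  decide +kernel

theorem rowsE6 : E6.all rowTest = true := by
  decide +kernel

theorem rowsE7 : E7.all rowTest = true := by
  decide +kernel

theorem rowsE8 : E8.all rowTest = true := by
  decide +kernel

theorem rowsE9 : E9.all rowTest = true := by
  decide +kernel

theorem rowsE10 : E10.all rowTest = true := by
  decide +kernel

theorem rowsE11 : E11.all rowTest = true := by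
  decide +kernel

theorem rowsE12 : E12.all rowTest = true := by
  decide +kernel

theorem rowsE13 : E13.all rowTest = true := by
  decide +kernel

theorem rowsE14 : E14.all rowTest = true := by
  decide +kernel

theorem rowsE15 : E15.all rowTest = true := by
  decide +kernel

theorem rowsE16 : E16.all rowTest = true := by
  decide +kernel

theorem rowsE17 : E17.all rowTest = true := by
  decide +kernel

theorem rowsE18 : E18.all rowTest = true := by
  decide +kernel

theorem rowsE19 : E19.all rowTest = true := by
  decide +kernel

theorem rowsE20 : E20.all rowTest = true := by
  decide +kernel

theorem rowsE21 : E21.all rowTest = true := by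
  decide +kernel

theorem rowsE22 : E22.all rowTest = true := by
  decide +kernel

theorem rowsE23 : E23.all rowTest = true := by
  decide +kernel

theorem rowsE24 : E24.all rowTest = true := by
  decide +kernel

theorem rowsE25 : E25.all rowTest = true := by
  decide +kernel

theorem rowsE26 : E26.all rowTest = true := by
  decide +kernel

theorem rowsE27 : E27.all rowTest = true := by
  decide +kernel

theorem rowsE28 : E28.all rowTest = true := by
  decide +kernel

theorem rowsE29 : E29.all rowTest = true := by
  decide +kernel

theorem rowsE30 : E30.all rowTest = true := by
  decide +kernel

end Pool.Agent.H62.Sun18
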