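import Pool.Agent.H62.Sun18.Base

/-!
Kernel computation for the triple `(18, 38, 18)`, part 5.
-/

set_option autoImplicit false
set_option maxRecDepth 100000

namespace Pool.Agent.H62.Sun18

theorem rowsE31 : E31.all rowTest = true := by
  decide +kernel

theorem rowsE32 : E32.all rowTest = true := by
  decide +kernel

theorem rowsE33 : E33.all rowTest = true := by
  decide +kernel

theorem rowsE34 : E34.all rowTest = true := by
  decide +kernel

theorem rowsE35 : E35.all rowTest = true := by
  decide +kernel

theorem rowsE36 : E36.all rowTest = true := by
  decide +kernel

theorem rowsE37 : E37.all rowTest = true := by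
  decide +kernel

theorem rowsE38 : E38.all rowTest = true := by
  decide +kernel

theorem rowsE39 : E39.all rowTest = true := by
  decide +kernel

theorem rowsE40 : E40.all rowTest = true := by
  decide +kernel

theorem rowsE41 : E41.all rowTest = true := by
  decide +kernel

theorem rowsE42 : E42.all rowTest = true := by
  decide +kernel

theorem rowsE43 : E43.all rowTest = true := by
  decide +kernel

theorem rowsE44 : E44.all rowTest = true := by
  decide +kernel

theorem rowsE45 : E45.all rowTest = true := by
  decide +kernel

theorem rowsE46 : E46.all rowTest = true := by
  decide +kernel

theorem rowsE47 : E47.all rowTest = true := by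
  decide +kernel

theorem rowsE48 : E48.all rowTest = true := by
  decide +kernel

theorem rowsE49 : E49.all rowTest = true := by
  decide +kernel

theorem rowsE50 : E50.all rowTest = true := by
  decide +kernel

theorem rowsE51 : E51.all rowTest = true := by
  decide +kernel

theorem rowsE52 : E52.all rowTest = true := by
  decide +kernel

theorem rowsE53 : E53.all rowTest = true := by
  decide +kernel

theorem rowsE54 : E54.all rowTest = true := by
  decide +kernel

theorem rowsE55 : E55.all rowTest = true := by
  decide +kernel

theorem rowsE56 : E56.all rowTest = true := by
  decide +kernel

theorem rowsE57 : E57.all rowTest = true := by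
  decide +kernel

theorem rowsE58 : E58.all rowTest = true := by
  decide +kernel

theorem rowsE59 : E59.all rowTest = true := by
  decide +kernel

end Pool.Agent.H62.Sun18
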